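import Pool.Agent.Helper72.AI.Stmts3

/-!
MP_870acd_co: the linear program.
-/

namespace Pool.Agent.Helper22.AI

open AffInc

theorem lp_aux (f0 f1 f2 f3 f4 f5 w0 w1 w2 c : ℝ)
    (h0 : f0 ≤ 1) (h1 : f1 ≤ 1) (h2 : f2 ≤ 1) (h3 : f3 ≤ 1) (h4 : f4 ≤ 1) (h5 : f5 ≤ 1)
    (h01 : f0 + f1 ≤ 1) (h12 : f1 + f2 ≤ 1) (h23 : f2 + f3 ≤ 1) (h34 : f3 + f4 ≤ 1)
    (h45 : f4 + f5 ≤ 1) (h50 : f5 + f0 ≤ 1) (hw0 : 0 ≤ w0) (hw1 : 0 ≤ w1) (hw2 : 0 ≤ w2)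
    (hc : w0 + w1 + w2 ≤ c) (hc0 : 2 * w0 ≤ c) (hc1 : 2 * w1 ≤ c) (hc2 : 2 * w2 ≤ c) :
    w0 * f0 + w1 * f1 + w2 * f2 + w0 * f3 + w1 * f4 + w2 * f5 ≤ c := by
  by_cases hA : w1 + w2 < w0
  · have e1 := mul_nonneg hw1 (sub_nonneg.2 h01)
    have e2 := mul_nonneg hw1 (sub_nonneg.2 h34)
    have e3 := mul_nonneg hw2 (sub_nonneg.2 h23)
    have e4 := mul_nonneg hw2 (sub_nonneg.2 h50)
    have e5 := mul_nonneg (sub_nonneg.2 hA.le) (sub_nonneg.2 h0)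
    have e6 := mul_nonneg (sub_nonneg.2 hA.le) (sub_nonneg.2 h3)
    linarith
  by_cases hB : w0 + w2 < w1
  · have e1 := mul_nonneg hw0 (sub_nonneg.2 h01)
    have e2 := mul_nonneg hw0 (sub_nonneg.2 h34)
    have e3 := mul_nonneg hw2 (sub_nonneg.2 h12)
    have e4 := mul_nonneg hw2 (sub_nonneg.2 h45)
    have e5 := mul_nonneg (sub_nonneg.2 hB.le) (sub_nonneg.2 h1)
    have e6 := mul_nonneg (sub_nonneg.2 hB.le) (sub_nonneg.2 h4)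
    linarith
  by_cases hC : w0 + w1 < w2
  · have e1 := mul_nonneg hw0 (sub_nonneg.2 h50)
    have e2 := mul_nonneg hw0 (sub_nonneg.2 h23)
    have e3 := mul_nonneg hw1 (sub_nonneg.2 h12)
    have e4 := mul_nonneg hw1 (sub_nonneg.2 h45)
    have e5 := mul_nonneg (sub_nonneg.2 hC.le) (sub_nonneg.2 h2)
    have e6 := mul_nonneg (sub_nonneg.2 hC.le) (sub_nonneg.2 h5)
    linarith
  push Not at hA hB hC
  have e1 := mul_nonneg (sub_nonneg.2 hC) (sub_nonneg.2 h01)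
  have e2 := mul_nonneg (sub_nonneg.2 hC) (sub_nonneg.2 h34)
  have e3 := mul_nonneg (sub_nonneg.2 hA) (sub_nonneg.2 h12)
  have e4 := mul_nonneg (sub_nonneg.2 hA) (sub_nonneg.2 h45)
  have e5 := mul_nonneg (sub_nonneg.2 hB) (sub_nonneg.2 h23)
  have e6 := mul_nonneg (sub_nonneg.2 hB) (sub_nonneg.2 h50)
  linarith

theorem min_add_min (x y z : ℝ) : min x (1 - y) + min y (1 - z) ≤ 1 := by
  have h1 := min_le_right x (1 - y)
  have h2 := min_le_left y (1 - z)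
  linarith

theorem pf_E_lp : E_lp := by
  intro y0 y1 y2 y3 y4 y5 w0 w1 w2 c a0 b0 a1 b1 a2 b2 a3 b3 a4 b4 a5 b5 hw0 hw1 hw2 hc hc0 hc1 hc2
  exact lp_aux _ _ _ _ _ _ w0 w1 w2 c ((min_le_left _ _).trans b0) ((min_le_left _ _).trans b1)
    ((min_le_left _ _).trans b2) ((min_le_left _ _).trans b3) ((min_le_left _ _).trans b4)
    ((min_le_left _ _).trans b5) (min_add_min _ _ _) (min_add_min _ _ _) (min_add_min _ _ _)
    (min_add_min _ _ _) (min_add_min _ _ _) (min_add_min _ _ _) hw0 hw1 hw2 hc hc0 hc1 hc2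

end Pool.Agent.Helper22.AI
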