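import Pool.Agent.Helper72.AI.Stmts

/-!
MP_870acd_co: every figure has a maximum-area triangle.
-/

namespace Pool.Agent.Helper22.AI

open AffInc

theorem det3_continuous : Continuous det3 := by
  unfold det3
  fun_prop

theorem pf_S_maxtri : S_maxtri := by
  intro G hG
  have hne : (Set.univ.pi fun _ : Fin 3 => G).Nonempty := by
    obtain ⟨p, hp⟩ := hG.int
    exact ⟨fun _ => p, fun _ _ => interior_subset hp⟩
  have hc : IsCompact (Set.univ.pi fun _ : Fin 3 => G) := isCompact_univ_pi fun _ => hG.cpt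
  obtain ⟨X, hX, hmax⟩ := hc.exists_isMaxOn hne det3_continuous.continuousOn
  have hX' : ∀ i, X i ∈ G := fun i => hX i (Set.mem_univ i)
  have hmax' : ∀ Y : Fin 3 → ℝ × ℝ, (∀ i, Y i ∈ G) → det3 Y ≤ det3 X := fun Y hY =>
    hmax (fun i _ => hY i)
  refine ⟨X, ⟨hX', hmax'⟩, ?_⟩
  obtain ⟨p, hp⟩ := hG.int
  obtain ⟨ε, hε, hball⟩ := Metric.isOpen_iff.1 isOpen_interior p hp
  have hδ : 0 < ε / 2 := by positivity
  have h1 : (p.1 + ε / 2, p.2) ∈ G := by
    apply interior_subset
    apply hball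
    rw [Metric.mem_ball, Prod.dist_eq]
    simp only [dist_self]
    rw [Real.dist_eq]
    have : |p.1 + ε / 2 - p.1| = ε / 2 := by
      rw [add_sub_cancel_left, abs_of_pos hδ]
    rw [this, max_eq_left hδ.le]
    linarith
  have h2 : (p.1, p.2 + ε / 2) ∈ G := by
    apply interior_subset
    apply hball
    rw [Metric.mem_ball, Prod.dist_eq]
    simp only [dist_self]
    rw [Real.dist_eq]
    have : |p.2 + ε / 2 - p.2| = ε / 2 := by
      rw [add_sub_cancel_left, abs_of_pos hδ]
    rw [this, max_eq_right hδ.le]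
    linarith
  have h3 := hmax' ![p, (p.1 + ε / 2, p.2), (p.1, p.2 + ε / 2)] (by
    intro i
    fin_cases i
    · exact interior_subset hp
    · exact h1
    · exact h2)
  have h4 : det3 ![p, (p.1 + ε / 2, p.2), (p.1, p.2 + ε / 2)] = (ε / 2) ^ 2 := by
    simp [det3]
    ring
  rw [h4] at h3
  exact lt_of_lt_of_le (by positivity) h3

end Pool.Agent.Helper22.AI
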