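import Pool.Agent.Helper72.AI.Stmts

/-!
MP_870acd_co: an ellipse is not a polygon.
-/

namespace Pool.Agent.Helper22.AI

open AffInc

theorem disc_eq_of_comb (v p q : ℝ × ℝ) (a b : ℝ) (hv : v.1 ^ 2 + v.2 ^ 2 = 1)
    (hp : p ∈ Disc) (hq : q ∈ Disc) (ha : 0 < a) (hb : 0 < b) (hab : a + b = 1)
    (h : a • p + b • q = v) : p = v := by
  have hp' : p.1 ^ 2 + p.2 ^ 2 ≤ 1 := hp
  have hq' : q.1 ^ 2 + q.2 ^ 2 ≤ 1 := hq
  have h1 : a * p.1 + b * q.1 = v.1 := by simpa using congrArg Prod.fst h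
  have h2 : a * p.2 + b * q.2 = v.2 := by simpa using congrArg Prod.snd h
  have h3 : p.1 * v.1 + p.2 * v.2 ≤ 1 := by
    nlinarith [sq_nonneg (p.1 - v.1), sq_nonneg (p.2 - v.2)]
  have h4 : q.1 * v.1 + q.2 * v.2 ≤ 1 := by
    nlinarith [sq_nonneg (q.1 - v.1), sq_nonneg (q.2 - v.2)]
  have h5 : a * (p.1 * v.1 + p.2 * v.2) + b * (q.1 * v.1 + q.2 * v.2) = 1 := by
    rw [← hv, ← h1, ← h2]
    ring
  have h6 : p.1 * v.1 + p.2 * v.2 = 1 := by
    apply le_antisymm h3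
    by_contra hlt
    push Not at hlt
    have : a * (p.1 * v.1 + p.2 * v.2) + b * (q.1 * v.1 + q.2 * v.2) < a * 1 + b * 1 := by
      have e1 : a * (p.1 * v.1 + p.2 * v.2) < a * 1 := by gcongr
      have e2 : b * (q.1 * v.1 + q.2 * v.2) ≤ b * 1 := by gcongr
      linarith
    linarith
  have h7 : (p.1 - v.1) ^ 2 + (p.2 - v.2) ^ 2 ≤ 0 := by nlinarith
  have h8 : (p.1 - v.1) ^ 2 = 0 := by nlinarith [sq_nonneg (p.1 - v.1), sq_nonneg (p.2 - v.2)]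
  have h9 : (p.2 - v.2) ^ 2 = 0 := by nlinarith [sq_nonneg (p.1 - v.1), sq_nonneg (p.2 - v.2)]
  have h10 := pow_eq_zero_iff (two_ne_zero) |>.1 h8
  have h11 := pow_eq_zero_iff (two_ne_zero) |>.1 h9
  ext <;> linarith

theorem pf_S_poly : S_poly := by
  intro V Y hV hY hEq
  have hmem : ∀ θ : ℝ, T Y (Real.cos θ, Real.sin θ) ∈ V := by
    intro θ
    have hcs : (Real.cos θ) ^ 2 + (Real.sin θ) ^ 2 = 1 := Real.cos_sq_add_sin_sq θ
    apply extremePoints_convexHull_subset (𝕜 := ℝ)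
    rw [← hEq]
    rw [mem_extremePoints]
    refine ⟨⟨_, (show (Real.cos θ) ^ 2 + (Real.sin θ) ^ 2 ≤ 1 from hcs.le), rfl⟩, ?_⟩
    rintro _ ⟨p, hp, rfl⟩ _ ⟨q, hq, rfl⟩ ⟨a, b, ha, hb, hab, h⟩
    rw [← T_comb Y p q a b hab] at h
    have h' := T_injective Y hY h
    have h1 := disc_eq_of_comb _ p q a b hcs hp hq ha hb hab h'
    have h'' : b • q + a • p = (Real.cos θ, Real.sin θ) := (add_comm _ _).trans h'
    have h2 := disc_eq_of_comb _ q p b a hcs hq hp hb ha (by linarith) h''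
    exact ⟨by rw [h1], by rw [h2]⟩
  have hinf : (Set.Icc (0 : ℝ) Real.pi).Infinite := Set.Icc_infinite Real.pi_pos
  apply hinf
  apply Set.Finite.of_injOn (f := fun θ => T Y (Real.cos θ, Real.sin θ)) (t := V)
    (fun θ _ => hmem θ) _ hV
  intro θ hθ φ hφ h
  have h' := T_injective Y hY h
  exact Real.injOn_cos hθ hφ (congrArg Prod.fst h')

end Pool.Agent.Helper22.AI
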